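import Pool.Agent.Helper31.CY.St2

/-!
Project CY (MP_9583f0_gt, helper31), module SEG: continuation of catenaries.
-/

set_option autoImplicit false

open Set Topology Filter

namespace Pool.Agent.Helper81.CY

open Pool.Agent.Helper31.CY

theorem hSEG (hCTF : StCTF) : StSEG := by
  intro f a b m hab hf hfa hst hint
  obtain ⟨c0, c1, -, c3, -, -, c7, -, -, -⟩ := hCTF (f a) m hfa
  have hgc : Continuous (fun s : ℝ => cat (f a) m (s - a)) := by
    have h1 : Continuous (cat (f a) m) := continuous_iff_continuousAt.2 fun τ => (c3 τ).continuousAt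
    exact h1.comp (continuous_id.sub continuous_const)
  set S : Set ℝ := {x | ∀ u ∈ Icc a x, f u = cat (f a) m (u - a)} with hS
  have hclosed : IsClosed (S ∩ Icc a b) := by
    apply IsSeqClosed.isClosed
    intro x y hx hy
    have hyI : y ∈ Icc a b := isClosed_Icc.mem_of_tendsto hy (Eventually.of_forall fun n => (hx n).2)
    refine ⟨?_, hyI⟩
    intro u hu
    rcases lt_or_eq_of_le hu.2 with h | h
    · obtain ⟨n, hn⟩ := (hy.eventually (lt_mem_nhds h)).exists
      exact (hx n).1 u ⟨hu.1, hn.le⟩
    · subst h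
      have h1 : Tendsto (fun n => f (x n)) atTop (𝓝 (f u)) := by
        have h2 : Tendsto x atTop (𝓝[Icc a b] u) :=
          tendsto_nhdsWithin_iff.2 ⟨hy, Eventually.of_forall fun n => (hx n).2⟩
        exact (hf u hyI).tendsto.comp h2
      have h3 : Tendsto (fun n => cat (f a) m (x n - a)) atTop (𝓝 (cat (f a) m (u - a))) :=
        (hgc.tendsto u).comp hy
      have h4 : (fun n => f (x n)) = fun n => cat (f a) m (x n - a) := by
        funext n
        exact (hx n).1 (x n) ⟨(hx n).2.1, le_rfl⟩
      rw [h4] at h1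
      exact tendsto_nhds_unique h1 h3
  have haS : a ∈ S := by
    intro u hu
    have : u = a := le_antisymm hu.2 hu.1
    rw [this, sub_self, c0]
  have hgt : ∀ x ∈ S ∩ Ico a b, ∀ y ∈ Ioi x, (S ∩ Ioc x y).Nonempty := by
    rintro x ⟨hxS, hxI⟩ y hy
    have hxy : x < y := hy
    rcases lt_or_eq_of_le hxI.1 with hax | hax
    · obtain ⟨hfx, m', ε, hε, hloc⟩ := hint x ⟨hax, hxI.2⟩
      have hfx' : f x = cat (f a) m (x - a) := hxS x ⟨hax.le, le_rfl⟩
      obtain ⟨d0, d1, -, d3, -, -, -, -, -, -⟩ := hCTF (f x) m' hfx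
      have hD2 : HasDerivAt (fun s => cat (f x) m' (s - x)) m' x := by
        have h1 := HasDerivAt.comp_sub_const x x (d3 (x - x))
        rw [sub_self, d1] at h1
        exact h1
      have hD1 : HasDerivAt (fun s => cat (f a) m (s - a)) (ct (f a) m (x - a)) x :=
        HasDerivAt.comp_sub_const x a (c3 (x - a))
      have hev : (fun s => cat (f a) m (s - a)) =ᶠ[𝓝[Iic x] x] fun s => cat (f x) m' (s - x) := by
        have h1 : Ioi (max a (x - ε)) ∈ 𝓝[Iic x] x :=
          mem_nhdsWithin_of_mem_nhds (lt_mem_nhds (max_lt hax (by linarith)))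
        filter_upwards [h1, self_mem_nhdsWithin] with s hs1 hs2
        have hs3 : a < s := (le_max_left _ _).trans_lt hs1
        have hs4 : x - ε < s := (le_max_right _ _).trans_lt hs1
        have hs5 : s ≤ x := hs2
        rw [← hxS s ⟨hs3.le, hs5⟩]
        apply hloc
        rw [abs_lt]
        constructor <;> linarith
      have hm : ct (f a) m (x - a) = m' := by
        have hD3 : HasDerivWithinAt (fun s => cat (f a) m (s - a)) m' (Iic x) x :=
          hD2.hasDerivWithinAt.congr_of_eventuallyEq hev (by
            show cat (f a) m (x - a) = cat (f x) m' (x - x)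
            rw [sub_self, d0, hfx'])
        exact (uniqueDiffOn_Iic x x self_mem_Iic).eq_deriv _ hD1.hasDerivWithinAt hD3
      refine ⟨min (x + ε / 2) y, ?_, lt_min (by linarith) hxy, min_le_right _ _⟩
      intro u hu
      rcases le_or_gt u x with hux | hux
      · exact hxS u ⟨hu.1, hux⟩
      · have hu2 : u ≤ x + ε / 2 := hu.2.trans (min_le_left _ _)
        have h1 := hloc u (by
          rw [abs_lt]
          constructor <;> linarith)
        rw [h1, ← hm, hfx', c7]
        congr 1
        ring
    · subst hax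
      obtain ⟨ε, hε, hloc⟩ := hst
      refine ⟨min (a + ε / 2) y, ?_, lt_min (by linarith) hxy, min_le_right _ _⟩
      intro u hu
      have hu2 : u ≤ a + ε / 2 := hu.2.trans (min_le_left _ _)
      exact hloc u ⟨hu.1, by linarith⟩
  have hsub := hclosed.Icc_subset_of_forall_exists_gt haS hgt
  intro s hs
  exact hsub hs s ⟨hs.1, le_rfl⟩

end Pool.Agent.Helper81.CY
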